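import Pool.Agent.Lib.MP_df5da3_co.Design

set_option autoImplicit false

namespace Pool.Agent.Results.MP_df5da3_co.SharpBound

/-- `H` has a repeated disjoint union: `A, B, C, D ∈ H` with `{A, B} ≠ {C, D}`,
`A ∩ B = C ∩ D = ∅` and `A ∪ B = C ∪ D`. -/
def HasRepeatedDisjointUnion {n : ℕ} (H : Finset (Finset (Fin n))) : Prop :=
  ∃ A ∈ H, ∃ B ∈ H, ∃ C ∈ H, ∃ D ∈ H,
    ({A, B} : Set (Finset (Fin n))) ≠ {C, D} ∧ A ∩ B = ∅ ∧ C ∩ D = ∅ ∧ A ∪ B = C ∪ D

/-- `f n` is the least `m` such that every 3-uniform hypergraph on `n` vertices with at least `m`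
edges has a repeated disjoint union. -/
noncomputable def f (n : ℕ) : ℕ :=
  sInf {m : ℕ | ∀ H : Finset (Finset (Fin n)), (∀ e ∈ H, e.card = 3) → m ≤ H.card →
    HasRepeatedDisjointUnion H}

/-- A `2`-`(n, 5, 1)` design exists: a family of 5-sets such that every two different points lie in
exactly one member. -/
def DesignExists (n : ℕ) : Prop :=
  ∃ B : Finset (Finset (Fin n)), (∀ b ∈ B, b.card = 5) ∧
    ∀ x y : Fin n, x ≠ y → ∃! b, b ∈ B ∧ x ∈ b ∧ y ∈ b

lemma rep_iff {n : ℕ} (H : Finset (Finset (Fin n))) :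
    Pool.Agent.Lib.MP_df5da3_co.Rep H → HasRepeatedDisjointUnion H := by
  rintro ⟨A, hA, B, hB, C, hC, D, hD, h1, h2, h3, h4, h5⟩
  refine ⟨A, hA, B, hB, C, hC, D, hD, ?_, Finset.disjoint_iff_inter_eq_empty.1 h1,
    Finset.disjoint_iff_inter_eq_empty.1 h2, h3⟩
  intro h
  have : A ∈ ({C, D} : Set (Finset (Fin n))) := by rw [← h]; simp
  rcases this with h | h
  · exact h4 h
  · exact h5 h

lemma rep_iff' {n : ℕ} (H : Finset (Finset (Fin n))) :
    HasRepeatedDisjointUnion H → Pool.Agent.Lib.MP_df5da3_co.Rep H := by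
  rintro ⟨A, hA, B, hB, C, hC, D, hD, hne, h1, h2, hun⟩
  have d1 : Disjoint A B := Finset.disjoint_iff_inter_eq_empty.2 h1
  have d2 : Disjoint C D := Finset.disjoint_iff_inter_eq_empty.2 h2
  refine ⟨A, hA, B, hB, C, hC, D, hD, d1, d2, hun, ?_, ?_⟩
  · intro h
    apply hne
    subst h
    have : B = D := by
      have e1 : (A ∪ B) \ A = B := Finset.union_sdiff_cancel_left d1
      have e2 : (A ∪ D) \ A = D := Finset.union_sdiff_cancel_left d2
      rw [← e1, hun, e2]
    rw [this]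
  · intro h
    apply hne
    subst h
    have : B = C := by
      have e1 : (A ∪ B) \ A = B := Finset.union_sdiff_cancel_left d1
      have e2 : (C ∪ A) \ A = C := Finset.union_sdiff_cancel_right d2
      rw [← e1, hun, e2]
    rw [this, Set.pair_comm]

/-- For every `n`, `f(n;3) ≤ C(n,2) + 1`, with equality if a `2`-`(n,5,1)` design exists. -/
theorem result (n : ℕ) :
    f n ≤ n.choose 2 + 1 ∧ (DesignExists n → f n = n.choose 2 + 1) := by
  have hmem : n.choose 2 + 1 ∈ {m : ℕ | ∀ H : Finset (Finset (Fin n)), (∀ e ∈ H, e.card = 3) →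
      m ≤ H.card → HasRepeatedDisjointUnion H} := by
    intro H h3 hm
    by_contra hR
    have := Pool.Agent.Lib.MP_df5da3_co.card_le_choose h3 (fun h => hR (rep_iff H h))
    rw [Fintype.card_fin] at this
    omega
  refine ⟨Nat.sInf_le hmem, fun hD => le_antisymm (Nat.sInf_le hmem) ?_⟩
  apply le_csInf ⟨_, hmem⟩
  intro m hm
  by_contra hcon
  obtain ⟨B, h5, hB⟩ := hD
  obtain ⟨H, h3, hc, hR⟩ := Pool.Agent.Lib.MP_df5da3_co.design_family B h5 hB
  rw [Fintype.card_fin] at hc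
  exact hR (rep_iff' H (hm H h3 (by omega)))

end Pool.Agent.Results.MP_df5da3_co.SharpBound
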